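import Pool.Agent.H70.RC.Targets

/-!
# Functions in P^NP
-/

set_option autoImplicit false

namespace Pool.Agent.H61.RC

open Pool.Agent.H70.RC

theorem small_mono {V : Type} {t t' : ℕ} (h : t ≤ t') {F : DNF V} (hF : DNF.Small t F) :
    DNF.Small t' F :=
  ⟨hF.1.trans (Nat.pow_le_pow_right two_pos h), fun T hT => (hF.2 T hT).trans h⟩

/-- (PNM) -/
theorem pf_PNM : T_PNM := by
  intro V α t t' c c' g ht hc h
  induction h generalizing c' with
  | pure c a => exact PNP.pure c' a
  | ask c F g g0 g1 hF h0 h1 hg1 hg0 ih0 ih1 =>
    obtain ⟨d, rfl⟩ : ∃ d, c' = d + 1 := ⟨c' - 1, by omega⟩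
    exact PNP.ask d F g g0 g1 (small_mono ht hF) (ih0 d (by omega)) (ih1 d (by omega)) hg1 hg0

/-- (PNB) -/
theorem pf_PNB : T_PNB := by
  intro V α β t c c' g h hg hh
  induction hg with
  | pure c a => exact pf_PNM V β t t c' (c + c') (h a) le_rfl (Nat.le_add_left _ _) (hh a)
  | ask c F g g0 g1 hF h0 h1 hg1 hg0 ih0 ih1 =>
    have e : c + 1 + c' = (c + c') + 1 := by omega
    rw [e]
    refine PNP.ask (c + c') F _ (fun X => h (g0 X) X) (fun X => h (g1 X) X) hF ih0 ih1 ?_ ?_
    · intro X hX
      rw [hg1 X hX]
    · intro X hX
      rw [hg0 X hX]

/-- (FND) -/
theorem pf_FND : T_FND := by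
  intro V β t k
  induction k with
  | zero =>
    intro L τ p hL ht hτ hp
    match L, hL with
    | [], _ => exact PNP.pure _ none
    | [b], _ =>
      cases hb : τ b with
      | none =>
        have h1 : (fun X => List.find? (fun b => p b X) [b]) = fun _ => (none : Option β) := by
          funext X
          rw [List.find?_eq_none]
          intro x hx
          rw [List.mem_singleton] at hx
          subst hx
          intro h2
          obtain ⟨T, hT, _⟩ := (hp x (List.mem_singleton.mpr rfl) X).mp h2
          rw [hb] at hT
          exact absurd hT (by simp)
        rw [h1]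
        exact PNP.pure _ none
      | some T =>
        refine PNP.ask 0 [T] _ (fun _ => none) (fun _ => some b) ?_ (PNP.pure _ _) (PNP.pure _ _)
          ?_ ?_
        · refine ⟨by simpa using Nat.one_le_two_pow, fun T' hT' => ?_⟩
          rw [List.mem_singleton] at hT'
          subst hT'
          exact hτ b (List.mem_singleton.mpr rfl) T' hb
        · intro X hX
          obtain ⟨T', hT', hs⟩ := hX
          rw [List.mem_singleton] at hT'
          subst hT'
          have h2 := (hp b (List.mem_singleton.mpr rfl) X).mpr ⟨T', hb, hs⟩
          simp [List.find?, h2]
        · intro X hX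
          have h2 : ¬ (p b X = true) := by
            intro h3
            obtain ⟨T', hT', hs⟩ := (hp b (List.mem_singleton.mpr rfl) X).mp h3
            rw [hb] at hT'
            cases hT'
            exact hX ⟨T, List.mem_singleton.mpr rfl, hs⟩
          simp [List.find?, h2]
    | a :: b :: l, h => exact absurd h (by simp)
  | succ k ih =>
    intro L τ p hL ht hτ hp
    have hLe : L.take (2 ^ k) ++ L.drop (2 ^ k) = L := List.take_append_drop _ _
    have m1 : ∀ b ∈ L.take (2 ^ k), b ∈ L := fun b hb => List.mem_of_mem_take hb
    have m2 : ∀ b ∈ L.drop (2 ^ k), b ∈ L := fun b hb => List.mem_of_mem_drop hb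
    have h1 := ih (L.take (2 ^ k)) τ p (by rw [List.length_take]; exact min_le_left _ _)
      (by omega) (fun b hb => hτ b (m1 b hb)) (fun b hb => hp b (m1 b hb))
    have h2 := ih (L.drop (2 ^ k)) τ p (by rw [List.length_drop]; rw [pow_succ] at hL; omega)
      (by omega) (fun b hb => hτ b (m2 b hb)) (fun b hb => hp b (m2 b hb))
    have hfa : ∀ X, L.find? (fun b => p b X) = ((L.take (2 ^ k)).find? (fun b => p b X)).or
        ((L.drop (2 ^ k)).find? (fun b => p b X)) := by
      intro X
      rw [← List.find?_append, hLe]
    refine PNP.ask (k + 1) ((L.take (2 ^ k)).filterMap τ) _ _ _ ?_ h2 h1 ?_ ?_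
    · constructor
      · refine (List.length_filterMap_le _ _).trans ?_
        rw [List.length_take]
        exact (min_le_left _ _).trans (Nat.pow_le_pow_right two_pos (by omega))
      · intro T hT
        obtain ⟨b, hb, hbT⟩ := List.mem_filterMap.mp hT
        exact hτ b (m1 b hb) T hbT
    · intro X hX
      obtain ⟨T, hT, hs⟩ := hX
      obtain ⟨b, hb, hbT⟩ := List.mem_filterMap.mp hT
      have h3 := (hp b (m1 b hb) X).mpr ⟨T, hbT, hs⟩
      show L.find? (fun b => p b X) = _
      rw [hfa]
      cases h4 : (L.take (2 ^ k)).find? (fun b => p b X) with
      | none =>
        rw [List.find?_eq_none] at h4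
        exact absurd h3 (h4 b hb)
      | some a => rfl
    · intro X hX
      show L.find? (fun b => p b X) = _
      rw [hfa]
      have h4 : (L.take (2 ^ k)).find? (fun b => p b X) = none := by
        rw [List.find?_eq_none]
        intro b hb h5
        obtain ⟨T, hbT, hs⟩ := (hp b (m1 b hb) X).mp h5
        exact hX ⟨T, List.mem_filterMap.mpr ⟨b, hb, hbT⟩, hs⟩
      rw [h4]
      rfl

/-- (RNC) -/
theorem pf_RNC : T_RNC := by
  classical
  intro W S _ st bv F β r
  induction r with
  | zero =>
    intro κ b _ h
    exact absurd h (by simp [run])
  | succ r ih =>
    intro κ b hκ h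
    rw [run] at h
    cases hf : F.find? (fun T => decide (psat (pv st bv κ) T)) with
    | none =>
      rw [hf] at h
      have hb : b = false := by
        cases h
        rfl
      subst hb
      constructor
      · intro h1
        exact absurd h1 (by simp)
      · rintro ⟨T, hT, hs⟩
        rw [List.find?_eq_none] at hf
        exfalso
        refine hf T hT ?_
        rw [decide_eq_true_iff]
        intro p hp
        have h1 := hs p hp
        unfold fv at h1
        unfold pv
        cases hst : st p.1 with
        | none =>
          rw [hst] at h1
          right
          simpa using h1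
        | some s =>
          rw [hst] at h1
          cases hl : κ.lookup s with
          | none => left; simpa using hl
          | some b' =>
            right
            have h2 := hκ s b' hl
            simp only at h1 ⊢
            rw [hl, ← h2, h1]
    | some T =>
      rw [hf] at h
      simp only at h
      by_cases hs : Term.Sat (fv st bv β) T
      · rw [if_pos hs] at h
        have hb : b = true := by
          cases h
          rfl
        subst hb
        exact ⟨fun _ => ⟨T, List.mem_of_find?_eq_some hf, hs⟩, fun _ => rfl⟩
      · rw [if_neg hs] at h
        refine ih _ b ?_ h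
        intro s b' hl
        rw [List.lookup_append] at hl
        cases h3 : (T.filterMap fun p => (st p.1).map fun s => (s, β s)).lookup s with
        | none =>
          rw [h3] at hl
          exact hκ s b' (by simpa using hl)
        | some b'' =>
          rw [h3] at hl
          have hb' : b'' = b' := by simpa using hl
          subst hb'
          have hmem : ∀ (l : List (W × Bool)) (c : Bool),
              (l.filterMap fun p => (st p.1).map fun s => (s, β s)).lookup s = some c →
              β s = c := by
            intro l
            induction l with
            | nil => intro c hc; exact absurd hc (by simp)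
            | cons q l ihl =>
              intro c hc
              cases hq : st q.1 with
              | none =>
                rw [List.filterMap_cons_none (by rw [hq]; rfl)] at hc
                exact ihl c hc
              | some s' =>
                rw [List.filterMap_cons_some (b := (s', β s')) (by rw [hq]; rfl),
                  List.lookup_cons] at hc
                by_cases hss : s = s'
                · subst hss
                  simpa using hc
                · have : (s == s') = false := by simpa using hss
                  rw [this] at hc
                  exact ihl c hc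
          exact hmem T b'' h3

end Pool.Agent.H61.RC
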