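import Pool.Agent.H61.RC.PA

/-!
# The canonical evaluation is in P^NP
-/

set_option autoImplicit false

namespace Pool.Agent.H61.RC

open Pool.Agent.H70.RC

theorem pnp_map {V α β : Type} {t c : ℕ} {g : (V → Bool) → α} (h : PNP t c g) (f : α → β) :
    PNP t c fun X => f (g X) := by
  have := pf_PNB V α β t c 0 g (fun a _ => f a) h fun a => PNP.pure 0 (f a)
  simpa using this

/-- the condition that a term is not contradicted is a term -/
theorem psat_term {V W S : Type} [DecidableEq S] (st : W → Option S) (bv : (V → Bool) → W → Bool)
    (κ : List (S × Bool))
    (hbv : ∀ w, (∃ b, ∀ X, bv X w = b) ∨ ∃ v, ∀ X, bv X w = X v) (T : Term W) :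
    ∃ o : Option (Term V), (∀ T', o = some T' → T'.length ≤ T.length) ∧
      ∀ X, (psat (pv st (bv X) κ) T ↔ ∃ T', o = some T' ∧ Term.Sat X T') := by
  induction T with
  | nil =>
    refine ⟨some [], fun T' h => by cases h; simp, fun X => ?_⟩
    constructor
    · intro _
      exact ⟨[], rfl, fun p hp => absurd hp (by simp)⟩
    · intro _ p hp
      exact absurd hp (by simp)
  | cons p T ih =>
    obtain ⟨o, ho1, ho2⟩ := ih
    have hcons : ∀ X, psat (pv st (bv X) κ) (p :: T) ↔
        (pv st (bv X) κ p.1 = none ∨ pv st (bv X) κ p.1 = some p.2) ∧
          psat (pv st (bv X) κ) T := by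
      intro X
      unfold psat
      simp only [List.mem_cons, forall_eq_or_imp]
    have always : (∀ X, pv st (bv X) κ p.1 = none ∨ pv st (bv X) κ p.1 = some p.2) →
        ∃ o : Option (Term V), (∀ T', o = some T' → T'.length ≤ (p :: T).length) ∧
      ∀ X, (psat (pv st (bv X) κ) (p :: T) ↔ ∃ T', o = some T' ∧ Term.Sat X T') := by
      intro h
      refine ⟨o, fun T' hT' => (ho1 T' hT').trans (by simp), fun X => ?_⟩
      rw [hcons, ho2]
      exact ⟨fun h1 => h1.2, fun h1 => ⟨h X, h1⟩⟩
    have never : (∀ X, ¬ (pv st (bv X) κ p.1 = none ∨ pv st (bv X) κ p.1 = some p.2)) →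
        ∃ o : Option (Term V), (∀ T', o = some T' → T'.length ≤ (p :: T).length) ∧
      ∀ X, (psat (pv st (bv X) κ) (p :: T) ↔ ∃ T', o = some T' ∧ Term.Sat X T') := by
      intro h
      refine ⟨none, fun T' hT' => (by cases hT'), fun X => ?_⟩
      rw [hcons]
      constructor
      · intro h1
        exact absurd h1.1 (h X)
      · rintro ⟨T', hT', _⟩
        cases hT'
    cases hst : st p.1 with
    | some s =>
      have hpv : ∀ X, pv st (bv X) κ p.1 = κ.lookup s := fun X => by
        unfold pv
        rw [hst]
      by_cases hk : κ.lookup s = none ∨ κ.lookup s = some p.2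
      · exact always fun X => by rw [hpv]; exact hk
      · exact never fun X => by rw [hpv]; exact hk
    | none =>
      have hpv : ∀ X, pv st (bv X) κ p.1 = some (bv X p.1) := fun X => by
        unfold pv
        rw [hst]
      rcases hbv p.1 with ⟨b, hb⟩ | ⟨v, hv⟩
      · by_cases hbp : b = p.2
        · exact always fun X => by rw [hpv, hb, hbp]; right; rfl
        · refine never fun X => ?_
          rw [hpv, hb]
          rintro (h | h)
          · cases h
          · exact hbp (Option.some.inj h)
      · refine ⟨o.map (fun T' => (v, p.2) :: T'), ?_, fun X => ?_⟩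
        · intro T' hT'
          obtain ⟨T'', hT'', rfl⟩ := Option.map_eq_some_iff.mp hT'
          have := ho1 T'' hT''
          simp only [List.length_cons]
          omega
        · rw [hcons, hpv, hv, ho2]
          constructor
          · rintro ⟨h1, T', hT', hs⟩
            refine ⟨(v, p.2) :: T', by rw [hT']; rfl, ?_⟩
            intro q hq
            rcases List.mem_cons.mp hq with rfl | hq
            · rcases h1 with h1 | h1
              · cases h1
              · exact Option.some.inj h1
            · exact hs q hq
          · rintro ⟨T', hT', hs⟩
            obtain ⟨T'', hT'', rfl⟩ := Option.map_eq_some_iff.mp hT'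
            refine ⟨Or.inr ?_, T'', hT'', fun q hq => hs q (List.mem_cons_of_mem _ hq)⟩
            exact congrArg some (hs (v, p.2) (by simp))

/-- the list of the answers for a term -/
def ansl {W S : Type} (st : W → Option S) (β : S → Bool) (T : Term W) : List Bool :=
  T.map fun p => match st p.1 with
    | none => true
    | some s => β s

theorem ansl_pnp {V W S : Type} (t c : ℕ) (st : W → Option S) (β : (V → Bool) → S → Bool)
    (T : Term W) (h : ∀ p ∈ T, ∀ s, st p.1 = some s → PNP t c fun X => β X s) :
    PNP t (T.length * c) fun X => ansl st (β X) T := by
  induction T with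
  | nil => exact PNP.pure _ []
  | cons p T ih =>
    have ih' := ih fun q hq => h q (List.mem_cons_of_mem _ hq)
    have hp : PNP t c fun X => (match st p.1 with
        | none => true
        | some s => β X s) := by
      cases hst : st p.1 with
      | none => exact PNP.pure _ true
      | some s => exact h p (by simp) s hst
    have h1 := pf_PNB V Bool (List Bool) t c (T.length * c) _
      (fun b X => b :: ansl st (β X) T) hp (fun b => pnp_map ih' (fun l => b :: l))
    have e : (p :: T).length * c = c + T.length * c := by
      simp only [List.length_cons]
      ring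
    rw [e]
    exact h1

/-- the answers determine the new list -/
theorem new_eq {W S : Type} (st : W → Option S) (β : S → Bool) (T : Term W) :
    (T.filterMap fun p => (st p.1).map fun s => (s, β s)) =
      (T.zip (ansl st β T)).filterMap fun x => (st x.1.1).map fun s => (s, x.2) := by
  induction T with
  | nil => rfl
  | cons p T ih =>
    have e : ansl st β (p :: T) = (match st p.1 with
        | none => true
        | some s => β s) :: ansl st β T := rfl
    rw [e, List.zip_cons_cons]
    cases hst : st p.1 with
    | none =>
      rw [List.filterMap_cons_none (by rw [hst]; rfl), List.filterMap_cons_none (by rw [hst]; rfl),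
        ih]
    | some s =>
      rw [List.filterMap_cons_some (b := (s, β s)) (by rw [hst]; rfl),
        List.filterMap_cons_some (b := (s, β s)) (by rw [hst]; rfl), ih]

/-- the answers determine whether the term is satisfied -/
theorem sat_iff {W S : Type} [DecidableEq S] (st : W → Option S) (bv : W → Bool)
    (κ : List (S × Bool)) (β : S → Bool) (T : Term W) (h : psat (pv st bv κ) T) :
    Term.Sat (fv st bv β) T ↔ ∀ x ∈ T.zip (ansl st β T), st x.1.1 = none ∨ x.2 = x.1.2 := by
  induction T with
  | nil =>
    constructor
    · intro _ x hx
      exact absurd hx (by simp)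
    · intro _ p hp
      exact absurd hp (by simp)
  | cons p T ih =>
    have h1 := h p (by simp)
    have h2 : psat (pv st bv κ) T := fun q hq => h q (List.mem_cons_of_mem _ hq)
    have ih' := ih h2
    have e : ansl st β (p :: T) = (match st p.1 with
        | none => true
        | some s => β s) :: ansl st β T := rfl
    have hS : Term.Sat (fv st bv β) (p :: T) ↔ fv st bv β p.1 = p.2 ∧
        Term.Sat (fv st bv β) T := by
      unfold Term.Sat
      simp only [List.mem_cons, forall_eq_or_imp]
    rw [hS, e, List.zip_cons_cons, ih']
    simp only [List.mem_cons, forall_eq_or_imp]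
    refine and_congr_left fun _ => ?_
    cases hst : st p.1 with
    | none =>
      simp only [true_or, iff_true]
      unfold fv
      rw [hst]
      unfold pv at h1
      rw [hst] at h1
      rcases h1 with h1 | h1
      · cases h1
      · exact Option.some.inj h1
    | some s =>
      unfold fv
      rw [hst]
      simp

/-- (RNP) -/
theorem pf_RNP : T_RNP := by
  classical
  intro V W S _ t k m c r st bv F β hk hm hF hFm hbv hβ
  choose τ hτ1 hτ2 using fun κ => psat_term (V := V) st bv κ hbv
  induction r with
  | zero =>
    intro κ
    have : (fun X : V → Bool => run st (bv X) F (β X) 0 κ) = fun _ => (none : Option Bool) := rfl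
    rw [this]
    exact PNP.pure _ none
  | succ r ih =>
    intro κ
    -- the search
    have h1 : PNP t (k + 1) fun X => F.find? fun T => decide (psat (pv st (bv X) κ) T) := by
      refine pf_FND V (Term W) t k F (τ κ) (fun T X => decide (psat (pv st (bv X) κ) T)) hF hk ?_ ?_
      · intro T hT T' hT'
        exact ((hτ1 κ T T' hT').trans (hFm T hT)).trans hm
      · intro T _ X
        rw [decide_eq_true_iff]
        exact hτ2 κ T X
    -- the continuation
    let H : Option (Term W) → (V → Bool) → Option Bool := fun a X =>
      match a with
      | none => some false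
      | some T => if T ∈ F then
          (if (∀ x ∈ T.zip (ansl st (β X) T), st x.1.1 = none ∨ x.2 = x.1.2) then some true
            else run st (bv X) F (β X) r (((T.zip (ansl st (β X) T)).filterMap fun x =>
              (st x.1.1).map fun s => (s, x.2)) ++ κ))
        else none
    have hH : ∀ a, PNP t (m * c + r * (k + 1 + m * c)) (H a) := by
      intro a
      cases a with
      | none => exact PNP.pure _ _
      | some T =>
        by_cases hT : T ∈ F
        · have h2 := ansl_pnp t c st β T (hβ T hT)
          have h3 := pf_PNM V _ t t (T.length * c) (m * c) _ le_rfl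
            (Nat.mul_le_mul_right c (hFm T hT)) h2
          have h4 := pf_PNB V (List Bool) (Option Bool) t (m * c) (r * (k + 1 + m * c)) _
            (fun l X => if (∀ x ∈ T.zip l, st x.1.1 = none ∨ x.2 = x.1.2) then some true
              else run st (bv X) F (β X) r (((T.zip l).filterMap fun x =>
              (st x.1.1).map fun s => (s, x.2)) ++ κ)) h3 ?_
          · have e : H (some T) = fun X => if (∀ x ∈ T.zip (ansl st (β X) T),
                st x.1.1 = none ∨ x.2 = x.1.2) then some true
                else run st (bv X) F (β X) r (((T.zip (ansl st (β X) T)).filterMap fun x =>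
                (st x.1.1).map fun s => (s, x.2)) ++ κ) := by
              funext X
              simp only [H, if_pos hT]
            rw [e]
            exact h4
          · intro l
            by_cases hl : ∀ x ∈ T.zip l, st x.1.1 = none ∨ x.2 = x.1.2
            · simp only [if_pos hl]
              exact PNP.pure _ _
            · simp only [if_neg hl]
              exact ih _
        · have e : H (some T) = fun _ => none := by
            funext X
            simp only [H, if_neg hT]
          rw [e]
          exact PNP.pure _ _
    have h5 := pf_PNB V (Option (Term W)) (Option Bool) t (k + 1) (m * c + r * (k + 1 + m * c)) _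
      H h1 hH
    have e1 : (r + 1) * (k + 1 + m * c) = k + 1 + (m * c + r * (k + 1 + m * c)) := by ring
    rw [e1]
    have e2 : (fun X => run st (bv X) F (β X) (r + 1) κ) =
        fun X => H (F.find? fun T => decide (psat (pv st (bv X) κ) T)) X := by
      funext X
      rw [run]
      cases hf : F.find? (fun T => decide (psat (pv st (bv X) κ) T)) with
      | none => rfl
      | some T =>
        have hT : T ∈ F := List.mem_of_find?_eq_some hf
        have hps : psat (pv st (bv X) κ) T := by
          have := List.find?_some hf
          simpa using this
        simp only [H, if_pos hT]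
        rw [← new_eq]
        by_cases hs : Term.Sat (fv st (bv X) (β X)) T
        · rw [if_pos hs, if_pos ((sat_iff st (bv X) κ (β X) T hps).mp hs)]
        · rw [if_neg hs, if_neg fun h => hs ((sat_iff st (bv X) κ (β X) T hps).mpr h)]
    rw [e2]
    exact h5

/-- the evaluation depends only on the bits which occur -/
theorem run_congr {W S : Type} [DecidableEq S] (st : W → Option S) (bv : W → Bool) (F : DNF W)
    (β β' : S → Bool) (h : ∀ T ∈ F, ∀ p ∈ T, ∀ s, st p.1 = some s → β s = β' s) (r : ℕ) :
    ∀ κ, run st bv F β r κ = run st bv F β' r κ := by
  classical
  induction r with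
  | zero => intro κ; rfl
  | succ r ih =>
    intro κ
    rw [run, run]
    cases hf : F.find? (fun T => decide (psat (pv st bv κ) T)) with
    | none => rfl
    | some T =>
      have hT : T ∈ F := List.mem_of_find?_eq_some hf
      have e1 : (T.filterMap fun p => (st p.1).map fun s => (s, β s)) =
          T.filterMap fun p => (st p.1).map fun s => (s, β' s) := by
        refine List.filterMap_congr fun p hp => ?_
        cases hst : st p.1 with
        | none => rfl
        | some s =>
          simp only [Option.map_some]
          rw [h T hT p hp s hst]
      have e2 : Term.Sat (fv st bv β) T ↔ Term.Sat (fv st bv β') T := by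
        refine forall₂_congr fun p hp => ?_
        unfold fv
        cases hst : st p.1 with
        | none => rfl
        | some s =>
          simp only
          rw [h T hT p hp s hst]
      simp only
      rw [e1, ih]
      by_cases hs : Term.Sat (fv st bv β) T
      · rw [if_pos hs, if_pos (e2.mp hs)]
      · rw [if_neg hs, if_neg fun h3 => hs (e2.mpr h3)]

/-- (VAL) -/
theorem pf_VAL : T_VAL := by
  classical
  intro V W S _ t k m r st bv F lv hk hm hr hF hFm hbv hlv
  set A := r * (k + 1 + m) with hA
  have hA1 : 1 ≤ A := by
    rw [hA]
    exact Nat.one_le_iff_ne_zero.mpr (Nat.mul_ne_zero (by omega) (by omega))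
  have key : ∀ l : ℕ, ∃ G : S → (V → Bool) → Bool,
      (∀ s, lv s < l → PNP t (A ^ (lv s + 1)) (G s)) ∧
      ∀ X β, (∀ s, (β s = true ↔ DNF.Sat (fv st (bv X) β) (F s))) →
      (∀ s, ¬ Bad st (bv X) (F s) r) → ∀ s, lv s < l → β s = G s X := by
    intro l
    induction l with
    | zero => exact ⟨fun _ _ => false, fun s hs => absurd hs (by omega),
        fun X β _ _ s hs => absurd hs (by omega)⟩
    | succ l ih =>
      obtain ⟨G, hG1, hG2⟩ := ih
      let β0 : (V → Bool) → S → Bool := fun X s => if lv s < l then G s X else false
      refine ⟨fun s X => if lv s < l then G s X else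
        (run st (bv X) (F s) (β0 X) r []).getD false, ?_, ?_⟩
      · intro s hs
        by_cases hsl : lv s < l
        · simp only [if_pos hsl]
          exact hG1 s hsl
        · have hsl' : lv s = l := by omega
          simp only [if_neg hsl]
          have h1 := pf_RNP V W S t k m (A ^ l) r st bv (F s) β0 hk hm (hF s) (hFm s) hbv
            (by
              intro T hT p hp s' hs'
              have h2 := hlv s T hT p hp s' hs'
              have h3 : lv s' < l := by omega
              simp only [β0, if_pos h3]
              exact pf_PNM V _ t t _ _ _ le_rfl (Nat.pow_le_pow_right hA1 (by omega))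
                (hG1 s' h3)) []
          have h2 := pnp_map h1 fun o => o.getD false
          refine pf_PNM V _ t t _ _ _ le_rfl ?_ h2
          rw [hsl', pow_succ, hA]
          have h3 : 1 ≤ A ^ l := Nat.one_le_pow _ _ hA1
          rw [hA] at h3
          calc r * (k + 1 + m * (r * (k + 1 + m)) ^ l) ≤
              r * ((k + 1) * (r * (k + 1 + m)) ^ l + m * (r * (k + 1 + m)) ^ l) := by
                refine Nat.mul_le_mul_left r ?_
                have : k + 1 ≤ (k + 1) * (r * (k + 1 + m)) ^ l := Nat.le_mul_of_pos_right _ h3
                omega
            _ = (r * (k + 1 + m)) ^ l * (r * (k + 1 + m)) := by ring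
      · intro X β hβ hbad s hs
        by_cases hsl : lv s < l
        · simp only [if_pos hsl]
          exact hG2 X β hβ hbad s hsl
        · simp only [if_neg hsl]
          have h1 : run st (bv X) (F s) (β0 X) r [] = run st (bv X) (F s) β r [] := by
            refine run_congr st (bv X) (F s) _ _ ?_ r []
            intro T hT p hp s' hs'
            have h2 := hlv s T hT p hp s' hs'
            have h3 : lv s' < l := by omega
            simp only [β0, if_pos h3]
            exact (hG2 X β hβ hbad s' h3).symm
          rw [h1]
          cases hrun : run st (bv X) (F s) β r [] with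
          | none => exact absurd ⟨β, hrun⟩ (hbad s)
          | some b =>
            have h2 := pf_RNC W S st (bv X) (F s) β r [] b (fun s b' h => by simp at h) hrun
            rw [← hβ s] at h2
            simp only [Option.getD_some]
            cases hb : β s <;> cases b <;> simp_all
  choose G hG1 hG2 using key
  refine ⟨fun s => G (lv s + 1) s, fun s => hG1 _ s (Nat.lt_succ_self _), ?_⟩
  intro X β hβ hbad s
  exact hG2 _ X β hβ hbad s (Nat.lt_succ_self _)

end Pool.Agent.H61.RC
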